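import Pool.Agent.X51.MD3

open Matrix Pool.Agent.X51.MDS

namespace Pool.Agent.Results.MP_e76747_lc.Attained

/-- The block matrix `[H_1 ... H_n]` has full row rank. -/
def FullRowRank {F : Type} [Field F] {n r l : ℕ} (H : Code F n r l) : Prop :=
  LinearIndependent F (Matrix.of fun (p : Fin r × Fin l) (s : Fin n × Fin l) => H s.1 p s.2).row

/-- `B(n,r,l,q) = l (n-1) - (r-1) t_l(q)`, `t_l(q) = 1 + q + ... + q^(l-1) = (q^l-1)/(q-1)`. -/
def B (n r l q : ℕ) : ℚ := l * ((n : ℚ) - 1) - ((r : ℚ) - 1) * ∑ k ∈ Finset.range l, (q : ℚ) ^ k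

/-- Some `(n, n-r, l)` MDS array code over the field with `q` elements has its average and maximum
repair bandwidth and its average and maximum repair I/O all equal to `B(n,r,l,q)`. -/
def AttainsB (q r l n : ℕ) : Prop :=
  ∃ (F : Type) (_ : Field F) (_ : Fintype F), Fintype.card F = q ∧ r < n ∧
    ∃ H : Code F n r l, FullRowRank H ∧ IsMDS H ∧
      (∑ i, (beta H i : ℚ)) / n = B n r l q ∧
      ((Finset.univ.sup fun i => beta H i : ℕ) : ℚ) = B n r l q ∧
      (∑ i, (gamma H i : ℚ)) / n = B n r l q ∧
      ((Finset.univ.sup fun i => gamma H i : ℕ) : ℚ) = B n r l q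

theorem fullRowRank_HH : FullRowRank HH := by
  unfold FullRowRank
  rw [← Matrix.vecMul_injective_iff]
  have h := isMDS_HH (Fin.castLE (by norm_num)) (Fin.castLE_injective _)
  rw [← Matrix.vecMul_injective_iff_isUnit] at h
  intro x y hxy
  apply h
  ext s
  simpa [Matrix.vecMul, dotProduct] using congrFun hxy (Fin.castLE (by norm_num) s.1, s.2)

/-- For `(q, r, l) = (4, 3, 2)` the divisibility `(r-1) ∣ (q-1)` fails, and the bound `B` is
attained by an `(18, 15, 2)` MDS array code over the field with four elements. -/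
theorem result : ¬ (3 - 1 ∣ 4 - 1) ∧ AttainsB 4 3 2 18 := by
  refine ⟨by norm_num, F4, inferInstance, inferInstance, F4.card_eq, by norm_num, HH,
    fullRowRank_HH, isMDS_HH, ?_, ?_, ?_, ?_⟩
  · simp only [beta_eq, B, Finset.sum_range_succ, Finset.sum_range_zero, Finset.sum_const,
      Finset.card_univ, Fintype.card_fin]
    norm_num
  · have : (Finset.univ.sup fun i => beta HH i) = 24 := by
      rw [Finset.sup_congr rfl fun i _ => beta_eq i]; exact Finset.sup_const ⟨0, Finset.mem_univ _⟩ 24
    rw [this, B]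
    norm_num [Finset.sum_range_succ]
  · simp only [gamma_eq, B, Finset.sum_range_succ, Finset.sum_range_zero, Finset.sum_const,
      Finset.card_univ, Fintype.card_fin]
    norm_num
  · have : (Finset.univ.sup fun i => gamma HH i) = 24 := by
      rw [Finset.sup_congr rfl fun i _ => gamma_eq i]; exact Finset.sup_const ⟨0, Finset.mem_univ _⟩ 24
    rw [this, B]
    norm_num [Finset.sum_range_succ]

end Pool.Agent.Results.MP_e76747_lc.Attained
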